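import Pool.Agent.R118.PM.Vertex

/-! The faces at a vertex are connected through edges, also without one edge. -/

set_option autoImplicit false

namespace Pool.Agent.R118.PM

open Filter Topology Module

variable {ι : Type} [Fintype ι]

theorem connect {P : Poly ι} (hP : IsPolyhedron P) {v : E3} (hv : v ∈ P.body.extremePoints ℝ)
    (e0 : Set E3)
    (he0 : ∀ c : ℝ, c < inner ℝ (nrm P v) v → (e0 ∩ {x | inner ℝ (nrm P v) x = c}).Subsingleton)
    (A : ι → Prop) (hA : ∃ i, v ∈ P.face i ∧ A i) (hB : ∃ j, v ∈ P.face j ∧ ¬ A j) :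
    ∃ i j, v ∈ P.face i ∧ v ∈ P.face j ∧ A i ∧ ¬ A j ∧
      ∃ y, y ∈ P.face i ∩ P.face j ∧ y ≠ v ∧ y ∉ e0 := by
  classical
  by_contra hcon
  push Not at hcon
  obtain ⟨c, hc, h2, ⟨y0, hy0, hy0c⟩, h4⟩ := exists_level hP hv
  set a := nrm P v with ha
  have ha0 : a ≠ 0 := by
    intro h
    rw [h, inner_zero_left] at hy0c
    rw [h, inner_zero_left] at hc
    linarith
  set W : Submodule ℝ E3 := (ℝ ∙ a)ᗮ with hW
  have hWr : finrank ℝ W = 2 := by
    have : Fact (finrank ℝ E3 = 2 + 1) := ⟨by simp⟩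
    exact Submodule.finrank_orthogonal_span_singleton (n := 2) ha0
  have hWrank : 1 < Module.rank ℝ W := by
    rw [← Module.finrank_eq_rank, hWr]
    norm_num
  have memW : ∀ x : E3, inner ℝ a x = c → x - y0 ∈ W := by
    intro x hx
    rw [hW, Submodule.mem_orthogonal_singleton_iff_inner_right, inner_sub_right, hx, hy0c, sub_self]
  have Wc : ∀ w : W, inner ℝ a (y0 + (w : E3)) = c := by
    intro w
    have h := Submodule.mem_orthogonal_singleton_iff_inner_right.1 w.2
    rw [inner_add_right, hy0c, h, add_zero]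
  let φ : W → E3 := fun w => y0 + (w : E3)
  have hφ : Continuous φ := by fun_prop
  set Q : Set W := {w | φ w ∈ P.body} with hQ
  have hQc : Convex ℝ Q := by
    intro x hx y hy s t hs ht hst
    have h := body_convex P hx hy hs ht hst
    show φ (s • x + t • y) ∈ P.body
    convert h using 1
    show y0 + ((s • x + t • y : W) : E3) = s • (y0 + (x : E3)) + t • (y0 + (y : E3))
    rw [Submodule.coe_add, Submodule.coe_smul, Submodule.coe_smul, smul_add, smul_add]
    have : y0 = s • y0 + t • y0 := by rw [← add_smul, hst, one_smul]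
    nth_rewrite 1 [this]
    abel
  have hQcl : IsClosed Q := (body_closed P).preimage hφ
  have hopen : IsOpen {w : W | ∀ i, inner ℝ (P.n i) (φ w) < P.b i} := by
    have : {w : W | ∀ i, inner ℝ (P.n i) (φ w) < P.b i} =
        ⋂ i, {w : W | inner ℝ (P.n i) (φ w) < P.b i} := by ext; simp
    rw [this]
    exact isOpen_iInter_of_finite fun i => isOpen_lt (by fun_prop) continuous_const
  have hint : ∀ w : W, (∀ i, inner ℝ (P.n i) (φ w) < P.b i) → w ∈ interior Q := by
    intro w hw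
    exact interior_maximal (fun z hz i => (hz i).le) hopen hw
  have hQne : (interior Q).Nonempty := by
    refine ⟨0, hint 0 fun i => ?_⟩
    show inner ℝ (P.n i) (y0 + ((0 : W) : E3)) < P.b i
    rw [Submodule.coe_zero, add_zero]
    exact hy0 i
  have hQb : Bornology.IsBounded Q := by
    obtain ⟨R, hR⟩ := hP.bounded.subset_closedBall 0
    refine (Metric.isBounded_closedBall (x := (0 : W)) (r := R + ‖y0‖)).subset ?_
    intro w hw
    rw [mem_closedBall_zero_iff]
    have h := hR hw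
    rw [mem_closedBall_zero_iff] at h
    have h5 : ‖(w : E3)‖ ≤ ‖φ w‖ + ‖y0‖ := by
      have h6 : (w : E3) = φ w - y0 := by
        show (w : E3) = y0 + (w : E3) - y0
        abel
      rw [h6]
      exact norm_sub_le _ _
    have h7 : ‖w‖ = ‖(w : E3)‖ := rfl
    rw [h7]
    linarith
  -- the two parts
  set SA : Set W := ⋃ i ∈ {i | v ∈ P.face i ∧ A i}, φ ⁻¹' P.face i with hSA
  set SB : Set W := ⋃ i ∈ {i | v ∈ P.face i ∧ ¬ A i}, φ ⁻¹' P.face i with hSB
  have clA : IsClosed SA := Set.Finite.isClosed_biUnion (Set.toFinite _)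
    fun i _ => (face_closed P i).preimage hφ
  have clB : IsClosed SB := Set.Finite.isClosed_biUnion (Set.toFinite _)
    fun i _ => (face_closed P i).preimage hφ
  have memA : ∀ w, w ∈ SA ↔ ∃ i, v ∈ P.face i ∧ A i ∧ φ w ∈ P.face i := by
    intro w
    simp only [hSA, Set.mem_iUnion, Set.mem_ofPred_eq, Set.mem_preimage, exists_prop, and_assoc]
  have memB : ∀ w, w ∈ SB ↔ ∃ i, v ∈ P.face i ∧ ¬ A i ∧ φ w ∈ P.face i := by
    intro w
    simp only [hSB, Set.mem_iUnion, Set.mem_ofPred_eq, Set.mem_preimage, exists_prop, and_assoc]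
  have cover : frontier Q ⊆ SA ∪ SB := by
    intro w hw
    have hwQ : w ∈ Q := hQcl.frontier_subset hw
    have hwi : w ∉ interior Q := hw.2
    have h5 : ∃ i, φ w ∈ P.face i := by
      by_contra h
      push Not at h
      exact hwi (hint w fun i => lt_of_le_of_ne (hwQ i) fun he => h i ⟨hwQ, he⟩)
    obtain ⟨i, hi⟩ := h5
    have hvi : v ∈ P.face i := by
      by_contra h
      exact absurd (Wc w) (h2 i h _ hi).ne
    by_cases hAi : A i
    · exact Or.inl ((memA w).2 ⟨i, hvi, hAi, hi⟩)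
    · exact Or.inr ((memB w).2 ⟨i, hvi, hAi, hi⟩)
  have infront : ∀ (w : W) (i : ι), φ w ∈ P.face i → w ∈ frontier Q := by
    intro w i hi
    refine ⟨subset_closure hi.1, fun hwi => ?_⟩
    have hev : ∀ᶠ ε in 𝓝 (0 : ℝ), w + ε • w ∈ Q := by
      have hcont : ContinuousAt (fun ε : ℝ => w + ε • w) 0 := by fun_prop
      have h5 : (fun ε : ℝ => w + ε • w) 0 = w := by simp
      have h6 : Q ∈ 𝓝 ((fun ε : ℝ => w + ε • w) 0) := by
        rw [h5]
        exact mem_interior_iff_mem_nhds.1 hwi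
      exact hcont.eventually_mem h6
    have hev2 : ∀ᶠ ε in 𝓝[>] (0 : ℝ), w + ε • w ∈ Q := hev.filter_mono nhdsWithin_le_nhds
    obtain ⟨ε, hε1, hε2⟩ := (hev2.and self_mem_nhdsWithin).exists
    have hε0 : 0 < ε := hε2
    have h7 : inner ℝ (P.n i) (y0 + ((w + ε • w : W) : E3)) ≤ P.b i := hε1 i
    have h8 : inner ℝ (P.n i) (y0 + (w : E3)) = P.b i := hi.2
    have h9 := hy0 i
    rw [Submodule.coe_add, Submodule.coe_smul, ← add_assoc, inner_add_right, h8,
      inner_smul_right] at h7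
    rw [inner_add_right] at h8
    nlinarith
  have hsubs : (SA ∩ SB).Subsingleton := by
    have h5 : ∀ w, w ∈ SA ∩ SB → φ w ∈ e0 ∩ {x | inner ℝ a x = c} := by
      rintro w ⟨hwA, hwB⟩
      obtain ⟨i, hi1, hi2, hi3⟩ := (memA w).1 hwA
      obtain ⟨j, hj1, hj2, hj3⟩ := (memB w).1 hwB
      have hne : φ w ≠ v := by
        intro h
        have h6 : inner ℝ a (φ w) = c := Wc w
        rw [h] at h6
        exact hc.ne' h6
      exact ⟨hcon i j hi1 hj1 hi2 hj2 (φ w) ⟨hi3, hj3⟩ hne, Wc w⟩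
    intro w hw w' hw'
    have h6 := he0 c hc (h5 w hw) (h5 w' hw')
    exact Subtype.ext (add_left_cancel h6)
  obtain ⟨q, hq⟩ : ∃ q : W, SA ∩ SB ⊆ {q} := by
    rcases (SA ∩ SB).eq_empty_or_nonempty with he | ⟨q, hq⟩
    · exact ⟨0, by rw [he]; exact Set.empty_subset _⟩
    · exact ⟨q, fun w hw => hsubs hw hq⟩
  have hpre := frontier_sdiff_preconnected hWrank hQc hQne hQb q
  have two : ∀ i, v ∈ P.face i → ∃ w : W, φ w ∈ P.face i ∧ w ≠ q := by
    intro i hi
    obtain ⟨x, hx, y, hy, hxy, hxc, hyc⟩ := h4 i hi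
    have ex : φ ⟨x - y0, memW x hxc⟩ = x := by
      show y0 + (x - y0) = x
      abel
    have ey : φ ⟨y - y0, memW y hyc⟩ = y := by
      show y0 + (y - y0) = y
      abel
    by_cases h : (⟨x - y0, memW x hxc⟩ : W) = q
    · refine ⟨⟨y - y0, memW y hyc⟩, by rw [ey]; exact hy, fun h' => hxy ?_⟩
      rw [← ex, ← ey, h, h']
    · exact ⟨⟨x - y0, memW x hxc⟩, by rw [ex]; exact hx, h⟩
  rw [isPreconnected_closed_iff] at hpre
  obtain ⟨i, hi1, hi2⟩ := hA
  obtain ⟨j, hj1, hj2⟩ := hB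
  obtain ⟨wA, hwA, hwA'⟩ := two i hi1
  obtain ⟨wB, hwB, hwB'⟩ := two j hj1
  obtain ⟨w, ⟨hw1, hw2⟩, hw3⟩ := hpre SA SB clA clB (Set.sdiff_subset.trans cover)
    ⟨wA, ⟨infront wA i hwA, hwA'⟩, (memA wA).2 ⟨i, hi1, hi2, hwA⟩⟩
    ⟨wB, ⟨infront wB j hwB, hwB'⟩, (memB wB).2 ⟨j, hj1, hj2, hwB⟩⟩
  exact hw2 (hq hw3)

end Pool.Agent.R118.PM
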