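import Mathlib

/-! Paneled polyhedra: definitions. -/

set_option autoImplicit false

namespace Pool.Agent.R118.PM

/-- Euclidean space -/
abbrev E3 : Type := EuclideanSpace ℝ (Fin 3)

/-- a system of linear inequalities `⟨n i, x⟩ ≤ b i` -/
structure Poly (ι : Type) where
  n : ι → E3
  b : ι → ℝ

variable {ι : Type}

/-- the solid -/
def Poly.body (P : Poly ι) : Set E3 := {x | ∀ i, inner ℝ (P.n i) x ≤ P.b i}

/-- the face (panel) of the inequality `i` -/
def Poly.face (P : Poly ι) (i : ι) : Set E3 := {x | x ∈ P.body ∧ inner ℝ (P.n i) x = P.b i}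

/-- the inequalities describe a convex polyhedron, one inequality for each of its faces -/
structure IsPolyhedron (P : Poly ι) : Prop where
  bounded : Bornology.IsBounded P.body
  interior : ∃ x, ∀ i, inner ℝ (P.n i) x < P.b i
  dim : ∀ i, Module.finrank ℝ (vectorSpan ℝ (P.face i)) = 2
  inj : ∀ i j, i ≠ j → P.face i ≠ P.face j

/-- `M` is a matching in the 1-skeleton: its members are edges (intersections of two different
faces which have more than one point), no two of them share a vertex -/
structure IsMatching (P : Poly ι) (M : Set (Set E3)) : Prop where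
  edge : ∀ e ∈ M, ∃ i j, i ≠ j ∧ e = P.face i ∩ P.face j ∧ e.Nontrivial
  disj : ∀ e ∈ M, ∀ e' ∈ M, e ≠ e' → ∀ x ∈ P.body.extremePoints ℝ, ¬ (x ∈ e ∧ x ∈ e')

/-- `g` is a motion of the paneled polyhedron cut along the edges in `M`: the panel `i` is moved by
the isometry `g i t` at the time `t`, and the hinges along the edges which are not in `M` are
respected -/
structure IsMotion (P : Poly ι) (M : Set (Set E3)) (g : ι → ℝ → (E3 ≃ᵢ E3)) : Prop where
  start : ∀ i x, g i 0 x = x
  cont : ∀ i x, ContinuousOn (fun t => g i t x) (Set.Icc 0 1)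
  hinge : ∀ i j, i ≠ j → (P.face i ∩ P.face j).Nontrivial → P.face i ∩ P.face j ∉ M →
    ∀ t ∈ Set.Icc (0 : ℝ) 1, ∀ x ∈ P.face i ∩ P.face j, g i t x = g j t x

/-- the paneled polyhedron cut along the edges in `M` is rigid -/
def Rigid (P : Poly ι) (M : Set (Set E3)) : Prop :=
  ∀ g, IsMotion P M g → ∀ t ∈ Set.Icc (0 : ℝ) 1, ∃ h : E3 ≃ᵢ E3, ∀ i, ∀ x ∈ P.face i,
    g i t x = h x

end Pool.Agent.R118.PM
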