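import Pool.Agent.R118.PM.Connect

/-! Motions of a cut paneled polyhedron respect the cut hinges. -/

set_option autoImplicit false

namespace Pool.Agent.R118.PM

open Filter Topology Module

variable {ι : Type}

theorem face_extreme (P : Poly ι) (i : ι) : IsExtreme ℝ P.body (P.face i) := by
  refine ⟨face_sub P i, ?_⟩
  intro x hx y hy z hz hzs
  obtain ⟨s, t, hs, ht, hst, rfl⟩ := hzs
  refine ⟨hx, le_antisymm (hx i) ?_⟩
  have h1 := hz.2
  rw [inner_add_right, inner_smul_right, inner_smul_right] at h1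
  have h2 := hy i
  by_contra h3
  push Not at h3
  have h4 : s * inner ℝ (P.n i) x < s * P.b i := mul_lt_mul_of_pos_left h3 hs
  have h5 : t * inner ℝ (P.n i) y ≤ t * P.b i := mul_le_mul_of_nonneg_left h2 ht.le
  have h6 : s * P.b i + t * P.b i = P.b i := by rw [← add_mul, hst, one_mul]
  linarith

variable [Fintype ι]

/-- all panels at a vertex carry the vertex to the same point -/
theorem at_vertex {P : Poly ι} (hP : IsPolyhedron P) {M : Set (Set E3)} (hM : IsMatching P M)
    {g : ι → ℝ → (E3 ≃ᵢ E3)} (hg : IsMotion P M g) {t : ℝ} (ht : t ∈ Set.Icc (0 : ℝ) 1) {v : E3}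
    (hv : v ∈ P.body.extremePoints ℝ) {i j : ι} (hi : v ∈ P.face i) (hj : v ∈ P.face j) :
    g i t v = g j t v := by
  by_contra hne
  obtain ⟨e0, he0, he1⟩ : ∃ e0 : Set E3,
      (∀ c : ℝ, c < inner ℝ (nrm P v) v → (e0 ∩ {x | inner ℝ (nrm P v) x = c}).Subsingleton) ∧
      ∀ e ∈ M, v ∈ e → e = e0 := by
    by_cases h : ∃ e ∈ M, v ∈ e
    · obtain ⟨e, he, hve⟩ := h
      obtain ⟨k, l, hkl, rfl, -⟩ := hM.edge e he
      refine ⟨_, fun c hc => edge_sub hP hkl hve.1 hve.2 hc.ne, fun e' he' hve' => ?_⟩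
      by_contra h1
      exact hM.disj e' he' _ he h1 v hv ⟨hve', hve⟩
    · push Not at h
      exact ⟨∅, fun c _ => by rw [Set.empty_inter]; exact Set.subsingleton_empty,
        fun e he hve => absurd hve (h e he)⟩
  obtain ⟨k, l, hk, hl, hAk, hAl, y, hy, hyv, hye⟩ := connect hP hv e0 he0
    (fun k => g k t v = g i t v) ⟨i, hi, rfl⟩ ⟨j, hj, fun h => hne h.symm⟩
  have hkl : k ≠ l := by
    rintro rfl
    exact hAl hAk
  have h1 := hg.hinge k l hkl ⟨v, ⟨hk, hl⟩, y, hy, hyv.symm⟩
    (fun hmem => hye ((he1 _ hmem ⟨hk, hl⟩) ▸ hy)) t ht v ⟨hk, hl⟩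
  exact hAl (h1.symm.trans hAk)

/-- every hinge is respected -/
theorem all_hinges {P : Poly ι} (hP : IsPolyhedron P) {M : Set (Set E3)} (hM : IsMatching P M)
    {g : ι → ℝ → (E3 ≃ᵢ E3)} (hg : IsMotion P M g) {t : ℝ} (ht : t ∈ Set.Icc (0 : ℝ) 1)
    (i j : ι) : ∀ x ∈ P.face i ∩ P.face j, g i t x = g j t x := by
  have hcl : IsClosed (P.face i ∩ P.face j) := (face_closed P i).inter (face_closed P j)
  have hcpt : IsCompact (P.face i ∩ P.face j) :=
    Metric.isCompact_of_isClosed_isBounded hcl
      (hP.bounded.subset (Set.inter_subset_left.trans (face_sub P i)))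
  have hconv : Convex ℝ (P.face i ∩ P.face j) := (face_convex P i).inter (face_convex P j)
  have hext : (P.face i ∩ P.face j).extremePoints ℝ ⊆ P.body.extremePoints ℝ :=
    ((face_extreme P i).inter (face_extreme P j)).extremePoints_subset_extremePoints
  set S : Set E3 := {x | g i t x = g j t x} with hS
  have hScl : IsClosed S := isClosed_eq (g i t).continuous (g j t).continuous
  have hSconv : Convex ℝ S := by
    intro x hx y hy a b _ _ hab
    have h1 := Convex.combo_affine_apply (x := x) (y := y)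
      (f := (g i t).toRealAffineIsometryEquiv.toAffineEquiv.toAffineMap) hab
    have h2 := Convex.combo_affine_apply (x := x) (y := y)
      (f := (g j t).toRealAffineIsometryEquiv.toAffineEquiv.toAffineMap) hab
    have h1' : g i t (a • x + b • y) = a • g i t x + b • g i t y := h1
    have h2' : g j t (a • x + b • y) = a • g j t x + b • g j t y := h2
    show g i t (a • x + b • y) = g j t (a • x + b • y)
    rw [h1', h2', show g i t x = g j t x from hx, show g i t y = g j t y from hy]
  have hsub : (P.face i ∩ P.face j).extremePoints ℝ ⊆ S := by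
    intro v hv
    exact at_vertex hP hM hg ht (hext hv) hv.1.1 hv.1.2
  intro x hx
  rw [← closure_convexHull_extremePoints hcpt hconv] at hx
  exact (closure_minimal (convexHull_min hsub hSconv) hScl) hx

theorem motion_iff {P : Poly ι} (hP : IsPolyhedron P) {M : Set (Set E3)} (hM : IsMatching P M)
    (g : ι → ℝ → (E3 ≃ᵢ E3)) : IsMotion P M g ↔ IsMotion P ∅ g := by
  constructor
  · intro hg
    exact ⟨hg.start, hg.cont, fun i j _ _ _ t ht x hx => all_hinges hP hM hg ht i j x hx⟩
  · intro hg
    exact ⟨hg.start, hg.cont, fun i j hij hn _ t ht x hx =>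
      hg.hinge i j hij hn (Set.notMem_empty _) t ht x hx⟩

theorem rigid_iff {P : Poly ι} (hP : IsPolyhedron P) {M : Set (Set E3)} (hM : IsMatching P M) :
    Rigid P M ↔ Rigid P ∅ := by
  unfold Rigid
  constructor
  · intro h g hg
    exact h g ((motion_iff hP hM g).2 hg)
  · intro h g hg
    exact h g ((motion_iff hP hM g).1 hg)

end Pool.Agent.R118.PM
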