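import Mathlib

/-! The boundary of a planar convex body minus a point is connected. -/

set_option autoImplicit false

namespace Pool.Agent.R118.PM

open Metric Module

variable {W : Type} [NormedAddCommGroup W] [InnerProductSpace ℝ W]

theorem sphere_sdiff_preconnected (hW : 1 < Module.rank ℝ W) (p : W) :
    IsPreconnected (sphere (0 : W) 1 \ {p}) := by
  by_cases hp : p ∈ sphere (0 : W) 1
  · have hv : ‖p‖ = 1 := by simpa using hp
    have h1 : IsPreconnected ((stereographic hv).symm '' (Set.univ : Set (ℝ ∙ p)ᗮ)) := by
      apply (convex_univ).isPreconnected.image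
      have := (stereographic hv).continuousOn_symm
      rwa [stereographic_target] at this
    have h2 : (stereographic hv).symm '' (Set.univ : Set (ℝ ∙ p)ᗮ) =
        {(⟨p, by simp [hv]⟩ : sphere (0 : W) 1)}ᶜ := by
      rw [← stereographic_target hv, (stereographic hv).symm_image_target_eq_source,
        stereographic_source]
    rw [h2] at h1
    have h3 := h1.image (Subtype.val : sphere (0 : W) 1 → W) continuous_subtype_val.continuousOn
    convert h3 using 1
    ext x
    constructor
    · rintro ⟨hx, hxp⟩
      exact ⟨⟨x, hx⟩, fun h => hxp (congrArg Subtype.val h), rfl⟩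
    · rintro ⟨⟨y, hy⟩, hyp, rfl⟩
      exact ⟨hy, fun h => hyp (Subtype.ext h)⟩
  · rw [Set.sdiff_singleton_eq_self hp]
    exact isPreconnected_sphere hW 0 1

theorem frontier_sdiff_preconnected (hW : 1 < Module.rank ℝ W) {Q : Set W} (hc : Convex ℝ Q)
    (hne : (interior Q).Nonempty) (hb : Bornology.IsBounded Q) (q : W) :
    IsPreconnected (frontier Q \ {q}) := by
  obtain ⟨e, -, -, he⟩ := exists_homeomorph_image_interior_closure_frontier_eq_unitBall hc hne hb
  have h1 := (sphere_sdiff_preconnected hW (e q)).image e.symm e.symm.continuous.continuousOn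
  convert h1 using 1
  rw [← he, ← Set.image_singleton, ← Set.image_sdiff e.injective, ← Set.image_comp]
  simp

end Pool.Agent.R118.PM
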