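import Pool.Agent.R118.PM.Main

/-! Simple polyhedra are rigid. -/

set_option autoImplicit false

namespace Pool.Agent.R118.PM

open Filter Topology Module

variable {ι : Type}

/-- every vertex lies on exactly three faces -/
def Simple (P : Poly ι) : Prop := ∀ v ∈ P.body.extremePoints ℝ, {i | v ∈ P.face i}.ncard = 3

/-- a continuous curve with constant distances to three points which are not collinear -/
theorem const_of_dist {q : ℝ → E3} (hq : ContinuousOn q (Set.Icc 0 1)) {a b c : E3}
    (hind : ∀ s t : ℝ, s • (b - a) = t • (c - a) → s = 0 ∧ t = 0)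
    (ha : ∀ t ∈ Set.Icc (0 : ℝ) 1, dist (q t) a = dist (q 0) a)
    (hb : ∀ t ∈ Set.Icc (0 : ℝ) 1, dist (q t) b = dist (q 0) b)
    (hc : ∀ t ∈ Set.Icc (0 : ℝ) 1, dist (q t) c = dist (q 0) c) :
    ∀ t ∈ Set.Icc (0 : ℝ) 1, q t = q 0 := by
  have hli : LinearIndependent ℝ ![b - a, c - a] := by
    rw [LinearIndependent.pair_iff]
    intro s t hst
    have h1 : s • (b - a) = (-t) • (c - a) := by
      rw [neg_smul]
      exact eq_neg_of_add_eq_zero_left hst
    obtain ⟨h2, h3⟩ := hind s (-t) h1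
    exact ⟨h2, neg_eq_zero.1 h3⟩
  set K : Submodule ℝ E3 := Submodule.span ℝ (Set.range ![b - a, c - a]) with hK
  have hKr : finrank ℝ K = 2 := by
    rw [hK, finrank_span_eq_card hli]
    simp
  have hKo : finrank ℝ Kᗮ = 1 := by
    have := K.finrank_add_finrank_orthogonal
    rw [hKr, finrank_euclideanSpace, Fintype.card_fin] at this
    omega
  obtain ⟨n, hn0, hn⟩ := finrank_eq_one_iff'.1 hKo
  have hn0' : (n : E3) ≠ 0 := fun h => hn0 (Subtype.ext h)
  have hnn : (inner ℝ (n : E3) (n : E3) : ℝ) ≠ 0 := inner_self_ne_zero.2 hn0'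
  have sq : ∀ (x y : E3), dist x y ^ 2 = inner ℝ x x - 2 * inner ℝ x y + inner ℝ y y := by
    intro x y
    rw [dist_eq_norm, ← real_inner_self_eq_norm_sq, inner_sub_left, inner_sub_right,
      inner_sub_right, real_inner_comm x y]
    ring
  have hsq : ∀ p : E3, (∀ t ∈ Set.Icc (0 : ℝ) 1, dist (q t) p = dist (q 0) p) →
      ∀ t ∈ Set.Icc (0 : ℝ) 1, (inner ℝ (q t) (q t) : ℝ) - 2 * inner ℝ (q t) p =
        inner ℝ (q 0) (q 0) - 2 * inner ℝ (q 0) p := by
    intro p hp t ht
    have h1 := congrArg (fun z : ℝ => z ^ 2) (hp t ht)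
    simp only [sq] at h1
    linarith
  have hperp : ∀ t ∈ Set.Icc (0 : ℝ) 1, q t - q 0 ∈ Kᗮ := by
    intro t ht
    have e1 := hsq a ha t ht
    have e2 := hsq b hb t ht
    have e3 := hsq c hc t ht
    rw [Submodule.mem_orthogonal]
    intro u hu
    rw [hK] at hu
    induction hu using Submodule.span_induction with
    | mem u hu =>
      obtain ⟨k, rfl⟩ := hu
      fin_cases k
      · show inner ℝ (b - a) (q t - q 0) = 0
        rw [inner_sub_left, inner_sub_right, inner_sub_right, real_inner_comm (q t) b,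
          real_inner_comm (q 0) b, real_inner_comm (q t) a, real_inner_comm (q 0) a]
        linarith
      · show inner ℝ (c - a) (q t - q 0) = 0
        rw [inner_sub_left, inner_sub_right, inner_sub_right, real_inner_comm (q t) c,
          real_inner_comm (q 0) c, real_inner_comm (q t) a, real_inner_comm (q 0) a]
        linarith
    | zero => exact inner_zero_left _
    | add u w _ _ hu hw => rw [inner_add_left, hu, hw, add_zero]
    | smul c u _ hu => rw [inner_smul_left, hu, mul_zero]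
  let s : ℝ → ℝ := fun t => inner ℝ (n : E3) (q t - q 0) / inner ℝ (n : E3) (n : E3)
  have hscont : ContinuousOn s (Set.Icc 0 1) := by
    have h1 : ContinuousOn (fun t => q t - q 0) (Set.Icc 0 1) := hq.sub continuousOn_const
    have h2 : ContinuousOn (fun t => (inner ℝ (n : E3) (q t - q 0) : ℝ)) (Set.Icc 0 1) :=
      ContinuousOn.inner continuousOn_const h1
    exact h2.div_const _
  have hd : ∀ t ∈ Set.Icc (0 : ℝ) 1, q t - q 0 = s t • (n : E3) := by
    intro t ht
    obtain ⟨r, hr⟩ := hn ⟨q t - q 0, hperp t ht⟩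
    have hr' : r • (n : E3) = q t - q 0 := congrArg Subtype.val hr
    have h1 : s t = r := by
      show inner ℝ (n : E3) (q t - q 0) / inner ℝ (n : E3) (n : E3) = r
      rw [← hr', inner_smul_right]
      field_simp
    rw [h1, hr']
  set m : ℝ := inner ℝ (q 0 - a) (n : E3) / inner ℝ (n : E3) (n : E3) with hm
  have hval : ∀ t ∈ Set.Icc (0 : ℝ) 1, s t * (s t + 2 * m) = 0 := by
    intro t ht
    have e1 := hsq a ha t ht
    have h1 : q t = q 0 + s t • (n : E3) := by rw [← hd t ht]; abel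
    have h2 : (inner ℝ (q 0 - a) (n : E3) : ℝ) = m * inner ℝ (n : E3) (n : E3) := by
      rw [hm]; field_simp
    rw [inner_sub_left] at h2
    rw [h1] at e1
    simp only [inner_add_left, inner_add_right, inner_smul_left, inner_smul_right] at e1
    rw [real_inner_comm (q 0) (n : E3)] at e1
    have h3 : (inner ℝ (n : E3) a : ℝ) = inner ℝ a (n : E3) := real_inner_comm _ _
    have h4 : (starRingEnd ℝ) (s t) = s t := rfl
    rw [h3, h4] at e1
    have h5 : (inner ℝ (n : E3) (n : E3) : ℝ) * (s t * (s t + 2 * m)) = 0 := by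
      linear_combination e1 - 2 * s t * h2
    exact (mul_eq_zero.1 h5).resolve_left hnn
  have hs0 : s 0 = 0 := by
    show inner ℝ (n : E3) (q 0 - q 0) / inner ℝ (n : E3) (n : E3) = 0
    rw [sub_self, inner_zero_right, zero_div]
  intro t ht
  by_contra hne
  have hst : s t ≠ 0 := by
    intro h
    have := hd t ht
    rw [h, zero_smul] at this
    exact hne (sub_eq_zero.1 this)
  have hst2 : s t = -2 * m := by
    have := (mul_eq_zero.1 (hval t ht)).resolve_left hst
    linarith
  have hord := (isPreconnected_Icc.image s hscont).ordConnected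
  have h0mem : (0 : ℝ) ∈ s '' Set.Icc 0 1 := ⟨0, by simp, hs0⟩
  have h1mem : (-2 * m) ∈ s '' Set.Icc 0 1 := ⟨t, ht, hst2⟩
  have hmid : -m ∈ Set.uIcc (0 : ℝ) (-2 * m) := by
    rw [Set.mem_uIcc]
    rcases le_total 0 m with h | h
    · right; constructor <;> linarith
    · left; constructor <;> linarith
  obtain ⟨t', ht', hst'⟩ := hord.uIcc_subset h0mem h1mem hmid
  have h5 := hval t' ht'
  rw [hst'] at h5
  have h6 : m = 0 := by
    have : m * m = 0 := by linarith
    exact mul_self_eq_zero.1 this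
  apply hst
  rw [hst2, h6, mul_zero]

variable [Fintype ι]

theorem all_faces_eq {P : Poly ι} {v : E3} (hv : v ∈ P.body.extremePoints ℝ) {x : E3}
    (hx : x ∈ P.body) (h : ∀ i, v ∈ P.face i → x ∈ P.face i) : x = v := by
  by_contra hne
  have h1 := nrm_lt P hv hx hne
  have h2 : (inner ℝ (nrm P v) x : ℝ) = inner ℝ (nrm P v) v := by
    unfold nrm
    rw [sum_inner, sum_inner]
    refine Finset.sum_congr rfl fun i _ => ?_
    split_ifs with hi
    · rw [hi.2, (h i hi).2]
    · simp
  exact absurd h2 h1.ne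

theorem share {P : Poly ι} (hP : IsPolyhedron P) (hS : Simple P) {v : E3}
    (hv : v ∈ P.body.extremePoints ℝ) {i j : ι} (hij : i ≠ j) (hi : v ∈ P.face i)
    (hj : v ∈ P.face j) : ∃ p ∈ P.face i ∩ P.face j, p ≠ v := by
  classical
  obtain ⟨i', l, hi', hl, rfl, hli, y, hy, hyv, -⟩ := connect hP hv ∅
    (fun c _ => by rw [Set.empty_inter]; exact Set.subsingleton_empty)
    (fun k => k = i) ⟨i, hi, rfl⟩ ⟨j, hj, hij.symm⟩
  by_cases hlj : l = j
  · subst hlj
    exact ⟨y, hy, hyv⟩
  obtain ⟨i'', l2, hi'', hl2, hi3, hli2, y2, hy2, hyv2, hye2⟩ := connect hP hv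
    (P.face i' ∩ P.face l) (fun c hc => edge_sub hP (Ne.symm hli) hi' hl hc.ne)
    (fun k => k = i') ⟨i', hi', rfl⟩ ⟨j, hj, hij.symm⟩
  subst hi3
  have hl2l : l2 ≠ l := by
    rintro rfl
    exact hye2 hy2
  by_cases hl2j : l2 = j
  · subst hl2j
    exact ⟨y2, hy2, hyv2⟩
  exfalso
  have h3 := hS v hv
  have h4 : ({i'', j, l, l2} : Finset ι).card = 4 := by
    rw [Finset.card_insert_of_notMem, Finset.card_insert_of_notMem, Finset.card_insert_of_notMem,
      Finset.card_singleton]
    · simpa using Ne.symm hl2l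
    · simp only [Finset.mem_insert, Finset.mem_singleton, not_or]
      exact ⟨Ne.symm hlj, Ne.symm hl2j⟩
    · simp only [Finset.mem_insert, Finset.mem_singleton, not_or]
      exact ⟨hij, Ne.symm hli, Ne.symm hli2⟩
  have h5 : (({i'', j, l, l2} : Finset ι) : Set ι) ⊆ {i | v ∈ P.face i} := by
    intro k hk
    simp only [Finset.coe_insert, Finset.coe_singleton, Set.mem_insert_iff,
      Set.mem_singleton_iff] at hk
    rcases hk with rfl | rfl | rfl | rfl
    · exact hi
    · exact hj
    · exact hl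
    · exact hl2
  have h6 := Set.ncard_le_ncard h5 (Set.toFinite _)
  rw [Set.ncard_coe_finset, h4, h3] at h6
  omega

theorem exists_third {P : Poly ι} (hS : Simple P) {v : E3}
    (hv : v ∈ P.body.extremePoints ℝ) {i j : ι} (hij : i ≠ j) (hi : v ∈ P.face i)
    (hj : v ∈ P.face j) : ∃ k, k ≠ i ∧ k ≠ j ∧ v ∈ P.face k ∧
      ∀ l, v ∈ P.face l → l = i ∨ l = j ∨ l = k := by
  classical
  have h3 := hS v hv
  have h1 : ({i, j} : Set ι) ⊆ {i | v ∈ P.face i} := by
    rintro k (rfl | rfl)
    · exact hi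
    · exact hj
  obtain ⟨k, hk1, hk2⟩ : ∃ k ∈ {i | v ∈ P.face i}, k ∉ ({i, j} : Set ι) := by
    by_contra h
    push Not at h
    have h2 := Set.ncard_le_ncard (s := {i | v ∈ P.face i}) (t := ({i, j} : Set ι)) h
      (Set.toFinite _)
    rw [h3, Set.ncard_pair hij] at h2
    omega
  simp only [Set.mem_insert_iff, Set.mem_singleton_iff, not_or] at hk2
  refine ⟨k, hk2.1, hk2.2, hk1, fun l hl => ?_⟩
  by_contra h
  push Not at h
  have h4 : ({i, j, k, l} : Finset ι).card = 4 := by
    rw [Finset.card_insert_of_notMem, Finset.card_insert_of_notMem, Finset.card_insert_of_notMem,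
      Finset.card_singleton]
    · simpa using Ne.symm h.2.2
    · simp only [Finset.mem_insert, Finset.mem_singleton, not_or]
      exact ⟨Ne.symm hk2.2, Ne.symm h.2.1⟩
    · simp only [Finset.mem_insert, Finset.mem_singleton, not_or]
      exact ⟨hij, Ne.symm hk2.1, Ne.symm h.1⟩
  have h5 : (({i, j, k, l} : Finset ι) : Set ι) ⊆ {i | v ∈ P.face i} := by
    intro r hr
    simp only [Finset.coe_insert, Finset.coe_singleton, Set.mem_insert_iff,
      Set.mem_singleton_iff] at hr
    rcases hr with rfl | rfl | rfl | rfl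
    · exact hi
    · exact hj
    · exact hk1
    · exact hl
  have h6 := Set.ncard_le_ncard h5 (Set.toFinite _)
  rw [Set.ncard_coe_finset, h4, h3] at h6
  omega

/-- relative motions are continuous -/
theorem rel_cont {P : Poly ι} {g : ι → ℝ → (E3 ≃ᵢ E3)} (hg : IsMotion P ∅ g) (i j : ι) (z : E3) :
    ContinuousOn (fun t => (g i t).symm (g j t z)) (Set.Icc 0 1) := by
  intro s hs
  have h1 : Tendsto (fun t => dist (g j t z) (g i t ((g i s).symm (g j s z))))
      (𝓝[Set.Icc 0 1] s) (𝓝 (dist (g j s z) (g i s ((g i s).symm (g j s z))))) :=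
    (hg.cont j z s hs).dist (hg.cont i _ s hs)
  rw [IsometryEquiv.apply_symm_apply, dist_self] at h1
  show Tendsto _ _ _
  rw [tendsto_iff_dist_tendsto_zero]
  refine h1.congr fun t => ?_
  rw [← (g i t).dist_eq ((g i t).symm (g j t z)), IsometryEquiv.apply_symm_apply]

theorem agree {P : Poly ι} (hP : IsPolyhedron P) (hS : Simple P) {g : ι → ℝ → (E3 ≃ᵢ E3)}
    (hg : IsMotion P ∅ g) {v : E3} (hv : v ∈ P.body.extremePoints ℝ) {i j : ι}
    (hi : v ∈ P.face i) (hj : v ∈ P.face j) :
    ∀ t ∈ Set.Icc (0 : ℝ) 1, ∀ z, g i t z = g j t z := by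
  by_cases hij : i = j
  · subst hij
    exact fun _ _ _ => rfl
  obtain ⟨k, hki, hkj, hk, hall⟩ := exists_third hS hv hij hi hj
  obtain ⟨pij, hpij, hpijv⟩ := share hP hS hv hij hi hj
  obtain ⟨pik, hpik, hpikv⟩ := share hP hS hv (Ne.symm hki) hi hk
  obtain ⟨pjk, hpjk, hpjkv⟩ := share hP hS hv (Ne.symm hkj) hj hk
  have nij : pij ∉ P.face k := by
    intro h
    apply hpijv
    apply all_faces_eq hv (face_sub P i hpij.1)
    intro l hl
    rcases hall l hl with rfl | rfl | rfl
    · exact hpij.1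
    · exact hpij.2
    · exact h
  have hneq : (inner ℝ (P.n k) (pij - v) : ℝ) ≠ 0 := by
    rw [inner_sub_right, hk.2]
    intro h
    exact nij ⟨face_sub P i hpij.1, sub_eq_zero.1 h⟩
  have ind1 : ∀ s t : ℝ, s • (pij - v) = t • (pik - v) → s = 0 ∧ t = 0 := by
    intro s t hst
    have h1 := congrArg (fun y => (inner ℝ (P.n k) y : ℝ)) hst
    simp only [inner_smul_right] at h1
    have h2 : (inner ℝ (P.n k) (pik - v) : ℝ) = 0 := by
      rw [inner_sub_right, hpik.2.2, hk.2, sub_self]
    rw [h2, mul_zero] at h1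
    have h3 : s = 0 := (mul_eq_zero.1 h1).resolve_right hneq
    rw [h3, zero_smul] at hst
    exact ⟨h3, (smul_eq_zero.1 hst.symm).resolve_right (sub_ne_zero.2 hpikv)⟩
  have ind2 : ∀ s t : ℝ, s • (pij - v) = t • (pjk - v) → s = 0 ∧ t = 0 := by
    intro s t hst
    have h1 := congrArg (fun y => (inner ℝ (P.n k) y : ℝ)) hst
    simp only [inner_smul_right] at h1
    have h2 : (inner ℝ (P.n k) (pjk - v) : ℝ) = 0 := by
      rw [inner_sub_right, hpjk.2.2, hk.2, sub_self]
    rw [h2, mul_zero] at h1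
    have h3 : s = 0 := (mul_eq_zero.1 h1).resolve_right hneq
    rw [h3, zero_smul] at hst
    exact ⟨h3, (smul_eq_zero.1 hst.symm).resolve_right (sub_ne_zero.2 hpjkv)⟩
  -- hinges
  have H1 : ∀ t ∈ Set.Icc (0 : ℝ) 1, ∀ x ∈ P.face i ∩ P.face j, g i t x = g j t x :=
    hg.hinge i j hij ⟨v, ⟨hi, hj⟩, pij, hpij, hpijv.symm⟩ (Set.notMem_empty _)
  have H2 : ∀ t ∈ Set.Icc (0 : ℝ) 1, ∀ x ∈ P.face i ∩ P.face k, g i t x = g k t x :=
    hg.hinge i k (Ne.symm hki) ⟨v, ⟨hi, hk⟩, pik, hpik, hpikv.symm⟩ (Set.notMem_empty _)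
  have H3 : ∀ t ∈ Set.Icc (0 : ℝ) 1, ∀ x ∈ P.face j ∩ P.face k, g j t x = g k t x :=
    hg.hinge j k (Ne.symm hkj) ⟨v, ⟨hj, hk⟩, pjk, hpjk, hpjkv.symm⟩ (Set.notMem_empty _)
  -- distances of the relative motion
  have dd : ∀ (z p : E3), (∀ t ∈ Set.Icc (0 : ℝ) 1, g i t p = g j t p) →
      ∀ t ∈ Set.Icc (0 : ℝ) 1, dist ((g i t).symm (g j t z)) p = dist z p := by
    intro z p hp t ht
    rw [← (g i t).dist_eq, IsometryEquiv.apply_symm_apply, hp t ht, (g j t).dist_eq]
  have z0 : ∀ z : E3, (g i 0).symm (g j 0 z) = z := by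
    intro z
    rw [IsometryEquiv.symm_apply_eq, hg.start, hg.start]
  have Hv : ∀ t ∈ Set.Icc (0 : ℝ) 1, g i t v = g j t v := fun t ht => H1 t ht v ⟨hi, hj⟩
  have Hij : ∀ t ∈ Set.Icc (0 : ℝ) 1, g i t pij = g j t pij := fun t ht => H1 t ht _ hpij
  have Hjk : ∀ t ∈ Set.Icc (0 : ℝ) 1, g i t pjk = g j t pjk := by
    have h1 := const_of_dist (rel_cont hg i j pjk) ind1
      (fun t ht => by rw [dd pjk v Hv t ht, z0])
      (fun t ht => by rw [dd pjk pij Hij t ht, z0])
      (fun t ht => by
        rw [z0, ← (g i t).dist_eq, IsometryEquiv.apply_symm_apply, H2 t ht pik hpik,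
          H3 t ht pjk hpjk, (g k t).dist_eq])
    intro t ht
    have h2 := h1 t ht
    rw [z0, IsometryEquiv.symm_apply_eq] at h2
    exact h2.symm
  intro t ht z
  have h1 := const_of_dist (rel_cont hg i j z) ind2
      (fun t ht => by rw [dd z v Hv t ht, z0])
      (fun t ht => by rw [dd z pij Hij t ht, z0])
      (fun t ht => by rw [dd z pjk Hjk t ht, z0]) t ht
  rw [z0, IsometryEquiv.symm_apply_eq] at h1
  exact h1.symm

theorem face_frontier {P : Poly ι} (hP : IsPolyhedron P) (i : ι) : P.face i ⊆ frontier P.body := by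
  intro x hx
  refine ⟨subset_closure hx.1, fun hxi => ?_⟩
  obtain ⟨x0, hx0⟩ := hP.interior
  have hev : ∀ᶠ ε in 𝓝 (0 : ℝ), x + ε • (x - x0) ∈ P.body := by
    have hcont : ContinuousAt (fun ε : ℝ => x + ε • (x - x0)) 0 := by fun_prop
    have h6 : P.body ∈ 𝓝 ((fun ε : ℝ => x + ε • (x - x0)) 0) := by
      simp only [zero_smul, add_zero]
      exact mem_interior_iff_mem_nhds.1 hxi
    exact hcont.eventually_mem h6
  have hev2 : ∀ᶠ ε in 𝓝[>] (0 : ℝ), x + ε • (x - x0) ∈ P.body := hev.filter_mono nhdsWithin_le_nhds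
  obtain ⟨ε, hε1, hε2⟩ := (hev2.and self_mem_nhdsWithin).exists
  have hε0 : 0 < ε := hε2
  have h7 := hε1 i
  rw [inner_add_right, inner_smul_right, inner_sub_right, hx.2] at h7
  have h9 := hx0 i
  nlinarith

theorem simple_rigid {P : Poly ι} (hP : IsPolyhedron P) (hS : Simple P) : Rigid P ∅ := by
  classical
  intro g hg
  have key : ∀ i j, ∀ t ∈ Set.Icc (0 : ℝ) 1, ∀ z, g i t z = g j t z := by
    intro i j
    by_contra hne
    set A : ι → Prop := fun k => ∀ t ∈ Set.Icc (0 : ℝ) 1, ∀ z, g i t z = g k t z with hA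
    have hint : (interior P.body).Nonempty := by
      obtain ⟨x0, hx0⟩ := hP.interior
      have hopen : IsOpen {w : E3 | ∀ i, inner ℝ (P.n i) w < P.b i} := by
        have : {w : E3 | ∀ i, inner ℝ (P.n i) w < P.b i} =
            ⋂ i, {w : E3 | inner ℝ (P.n i) w < P.b i} := by ext; simp
        rw [this]
        exact isOpen_iInter_of_finite fun i => isOpen_lt (by fun_prop) continuous_const
      exact ⟨x0, interior_maximal (fun z hz i => (hz i).le) hopen hx0⟩
    have hpre : IsPreconnected (frontier P.body) := by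
      obtain ⟨e, -, -, he⟩ := exists_homeomorph_image_interior_closure_frontier_eq_unitBall
        (body_convex P) hint hP.bounded
      have hr : 1 < Module.rank ℝ E3 := by
        rw [← Module.finrank_eq_rank, finrank_euclideanSpace, Fintype.card_fin]
        norm_num
      have h1 := (isPreconnected_sphere hr 0 1).image e.symm e.symm.continuous.continuousOn
      convert h1 using 1
      rw [← he, ← Set.image_comp]
      simp
    set SA : Set E3 := ⋃ k ∈ {k | A k}, P.face k with hSA
    set SB : Set E3 := ⋃ k ∈ {k | ¬ A k}, P.face k with hSB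
    have clA : IsClosed SA := Set.Finite.isClosed_biUnion (Set.toFinite _)
      fun k _ => face_closed P k
    have clB : IsClosed SB := Set.Finite.isClosed_biUnion (Set.toFinite _)
      fun k _ => face_closed P k
    have memA : ∀ w, w ∈ SA ↔ ∃ k, A k ∧ w ∈ P.face k := by
      intro w
      simp only [hSA, Set.mem_iUnion, Set.mem_ofPred_eq, exists_prop]
    have memB : ∀ w, w ∈ SB ↔ ∃ k, ¬ A k ∧ w ∈ P.face k := by
      intro w
      simp only [hSB, Set.mem_iUnion, Set.mem_ofPred_eq, exists_prop]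
    have hopen : IsOpen {w : E3 | ∀ i, inner ℝ (P.n i) w < P.b i} := by
      have : {w : E3 | ∀ i, inner ℝ (P.n i) w < P.b i} =
          ⋂ i, {w : E3 | inner ℝ (P.n i) w < P.b i} := by ext; simp
      rw [this]
      exact isOpen_iInter_of_finite fun i => isOpen_lt (by fun_prop) continuous_const
    have cover : frontier P.body ⊆ SA ∪ SB := by
      intro w hw
      have hwQ : w ∈ P.body := (body_closed P).frontier_subset hw
      have hwi : w ∉ interior P.body := hw.2
      have h5 : ∃ k, w ∈ P.face k := by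
        by_contra h
        push Not at h
        exact hwi (interior_maximal (fun z hz i => (hz i).le) hopen
          (fun k => lt_of_le_of_ne (hwQ k) fun he => h k ⟨hwQ, he⟩))
      obtain ⟨k, hk⟩ := h5
      by_cases hAk : A k
      · exact Or.inl ((memA w).2 ⟨k, hAk, hk⟩)
      · exact Or.inr ((memB w).2 ⟨k, hAk, hk⟩)
    have hne' : ∀ k, (P.face k).Nonempty := by
      intro k
      by_contra h
      rw [Set.not_nonempty_iff_eq_empty] at h
      have hd := hP.dim k
      rw [h, vectorSpan_empty, finrank_bot] at hd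
      omega
    obtain ⟨a, ha⟩ := hne' i
    obtain ⟨b, hb⟩ := hne' j
    rw [isPreconnected_closed_iff] at hpre
    obtain ⟨w, hw1, hw2, hw3⟩ := hpre SA SB clA clB cover
      ⟨a, face_frontier hP i ha, (memA a).2 ⟨i, fun _ _ _ => rfl, ha⟩⟩
      ⟨b, face_frontier hP j hb, (memB b).2 ⟨j, hne, hb⟩⟩
    obtain ⟨k, hk1, hk2⟩ := (memA w).1 hw2
    obtain ⟨l, hl1, hl2⟩ := (memB w).1 hw3
    have hcl : IsClosed (P.face k ∩ P.face l) := (face_closed P k).inter (face_closed P l)
    have hcpt : IsCompact (P.face k ∩ P.face l) :=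
      Metric.isCompact_of_isClosed_isBounded hcl
        (hP.bounded.subset (Set.inter_subset_left.trans (face_sub P k)))
    obtain ⟨v, hv⟩ := hcpt.extremePoints_nonempty ⟨w, hk2, hl2⟩
    have hvb : v ∈ P.body.extremePoints ℝ :=
      ((face_extreme P k).inter (face_extreme P l)).extremePoints_subset_extremePoints hv
    apply hl1
    intro t ht z
    rw [hk1 t ht z]
    exact agree hP hS hg hvb hv.1.1 hv.1.2 t ht z
  intro t ht
  rcases isEmpty_or_nonempty ι with hι | ⟨⟨i⟩⟩
  · exact ⟨IsometryEquiv.refl E3, fun i => (hι.false i).elim⟩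
  · exact ⟨g i t, fun j x _ => key j i t ht x⟩

end Pool.Agent.R118.PM
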