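import Pool.Agent.R118.PM.Defs
import Pool.Agent.R118.PM.Plane

/-! The faces at a vertex are connected through edges, also without one edge. -/

set_option autoImplicit false

namespace Pool.Agent.R118.PM

open Filter Topology Module

variable {ι : Type}

theorem body_convex (P : Poly ι) : Convex ℝ P.body := by
  intro x hx y hy s t hs ht hst i
  rw [inner_add_right, inner_smul_right, inner_smul_right]
  have h1 := mul_le_mul_of_nonneg_left (hx i) hs
  have h2 := mul_le_mul_of_nonneg_left (hy i) ht
  calc s * inner ℝ (P.n i) x + t * inner ℝ (P.n i) y ≤ s * P.b i + t * P.b i := add_le_add h1 h2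
    _ = P.b i := by rw [← add_mul, hst, one_mul]

theorem body_closed (P : Poly ι) : IsClosed P.body := by
  have : P.body = ⋂ i, {x | inner ℝ (P.n i) x ≤ P.b i} := by
    ext x; simp [Poly.body]
  rw [this]
  exact isClosed_iInter fun i => isClosed_le (by fun_prop) continuous_const

theorem face_closed (P : Poly ι) (i : ι) : IsClosed (P.face i) :=
  (body_closed P).inter (isClosed_eq (by fun_prop) continuous_const)

theorem face_sub (P : Poly ι) (i : ι) : P.face i ⊆ P.body := fun _ h => h.1

theorem face_convex (P : Poly ι) (i : ι) : Convex ℝ (P.face i) := by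
  intro x hx y hy s t hs ht hst
  refine ⟨body_convex P hx.1 hy.1 hs ht hst, ?_⟩
  rw [inner_add_right, inner_smul_right, inner_smul_right, hx.2, hy.2, ← add_mul, hst, one_mul]

variable [Fintype ι]

open scoped Classical in
/-- the sum of the normals of the faces at `v` -/
noncomputable def nrm (P : Poly ι) (v : E3) : E3 :=
  ∑ i, if v ∈ P.face i then P.n i else 0

theorem nrm_lt (P : Poly ι) {v : E3} (hv : v ∈ P.body.extremePoints ℝ) {x : E3}
    (hx : x ∈ P.body) (hxv : x ≠ v) : inner ℝ (nrm P v) x < inner ℝ (nrm P v) v := by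
  classical
  have hvb : v ∈ P.body := hv.1
  have hterm : ∀ i, inner ℝ (if v ∈ P.face i then P.n i else 0) x ≤
      inner ℝ (if v ∈ P.face i then P.n i else 0) v := by
    intro i
    split_ifs with h
    · rw [h.2]; exact hx i
    · simp
  have hle : inner ℝ (nrm P v) x ≤ inner ℝ (nrm P v) v := by
    unfold nrm
    rw [sum_inner, sum_inner]
    exact Finset.sum_le_sum fun i _ => hterm i
  refine lt_of_le_of_ne hle fun heq => hxv ?_
  have hall : ∀ i, v ∈ P.face i → inner ℝ (P.n i) x = P.b i := by
    intro i hi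
    unfold nrm at heq
    rw [sum_inner, sum_inner] at heq
    have h1 := (Finset.sum_eq_sum_iff_of_le (fun i _ => hterm i)).1 heq i (Finset.mem_univ i)
    rw [if_pos hi, hi.2] at h1
    exact h1
  -- go a little beyond `v`
  have hev : ∀ᶠ ε in 𝓝 (0 : ℝ), ∀ i, v ∉ P.face i →
      inner ℝ (P.n i) (v + ε • (v - x)) < P.b i := by
    rw [Filter.eventually_all]
    intro i
    by_cases hi : v ∈ P.face i
    · exact Filter.Eventually.of_forall fun _ h => absurd hi h
    · have hlt : inner ℝ (P.n i) v < P.b i :=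
        lt_of_le_of_ne (hvb i) fun h => hi ⟨hvb, h⟩
      have hc : Continuous fun ε : ℝ => (inner ℝ (P.n i) (v + ε • (v - x)) : ℝ) := by fun_prop
      have h0 : (inner ℝ (P.n i) (v + (0 : ℝ) • (v - x)) : ℝ) < P.b i := by
        rw [zero_smul, add_zero]; exact hlt
      filter_upwards [hc.continuousAt.eventually_lt continuousAt_const h0] with ε hε _
      exact hε
  have hev2 : ∀ᶠ ε in 𝓝[>] (0 : ℝ), ∀ i, v ∉ P.face i →
      inner ℝ (P.n i) (v + ε • (v - x)) < P.b i := hev.filter_mono nhdsWithin_le_nhds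
  obtain ⟨ε, hε1, hε2⟩ := (hev2.and self_mem_nhdsWithin).exists
  have hε0 : 0 < ε := hε2
  have hy : v + ε • (v - x) ∈ P.body := by
    intro i
    by_cases hi : v ∈ P.face i
    · rw [inner_add_right, inner_smul_right, inner_sub_right, hall i hi, hi.2]
      simp
    · exact (hε1 i hi).le
  have hseg : v ∈ openSegment ℝ x (v + ε • (v - x)) := by
    refine ⟨ε / (1 + ε), 1 / (1 + ε), by positivity, by positivity, by field_simp; ring, ?_⟩
    rw [smul_add, smul_smul]
    have h1 : (1 + ε) ≠ 0 := by positivity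
    have h2 : (ε / (1 + ε)) • x + ((1 / (1 + ε)) • v + (1 / (1 + ε) * ε) • (v - x)) =
        ((1 / (1 + ε)) + (1 / (1 + ε) * ε)) • v + (ε / (1 + ε) - 1 / (1 + ε) * ε) • x := by
      module
    rw [h2]
    have h3 : (1 / (1 + ε)) + (1 / (1 + ε) * ε) = 1 := by field_simp
    have h4 : ε / (1 + ε) - 1 / (1 + ε) * ε = 0 := by ring
    rw [h3, h4, one_smul, zero_smul, add_zero]
  exact hv.2 hx hy hseg

/-- two points of a face which are independent of `v` -/
theorem two_points {P : Poly ι} (hP : IsPolyhedron P) {v : E3} {i : ι} (hv : v ∈ P.face i) :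
    ∃ p ∈ P.face i, ∃ q ∈ P.face i, p ≠ v ∧ q ≠ v ∧
      ∀ s t : ℝ, s • (p - v) = t • (q - v) → s = 0 := by
  have hd := hP.dim i
  rw [vectorSpan_eq_span_vsub_set_right ℝ hv] at hd
  have h1 : ∃ p ∈ P.face i, p ≠ v := by
    by_contra h
    push Not at h
    have h2 : Submodule.span ℝ ((fun x => x -ᵥ v) '' P.face i) = ⊥ := by
      rw [Submodule.span_eq_bot]
      rintro _ ⟨x, hx, rfl⟩
      show x - v = 0
      rw [h x hx, sub_self]
    rw [h2, finrank_bot] at hd
    omega
  obtain ⟨p, hp, hpv⟩ := h1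
  have h3 : ∃ q ∈ P.face i, q - v ∉ Submodule.span ℝ {p - v} := by
    by_contra h
    push Not at h
    have h2 : Submodule.span ℝ ((fun x => x -ᵥ v) '' P.face i) ≤ Submodule.span ℝ {p - v} := by
      rw [Submodule.span_le]
      rintro _ ⟨x, hx, rfl⟩
      exact h x hx
    have h4 := Submodule.finrank_mono h2
    rw [hd] at h4
    have h5 := finrank_span_le_card (R := ℝ) ({p - v} : Set E3)
    simp at h5
    omega
  obtain ⟨q, hq, hqv⟩ := h3
  have hq0 : q ≠ v := by
    rintro rfl
    exact hqv (by rw [sub_self]; exact Submodule.zero_mem _)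
  refine ⟨p, hp, q, hq, hpv, hq0, ?_⟩
  intro s t hst
  by_contra hs
  by_cases ht : t = 0
  · subst ht
    rw [zero_smul] at hst
    rcases smul_eq_zero.1 hst with h | h
    · exact hs h
    · exact hpv (sub_eq_zero.1 h)
  · apply hqv
    rw [Submodule.mem_span_singleton]
    refine ⟨t⁻¹ * s, ?_⟩
    rw [mul_smul, hst, smul_smul, inv_mul_cancel₀ ht, one_smul]

/-- the normals of two faces with a common point are independent -/
theorem indep {P : Poly ι} (hP : IsPolyhedron P) {v : E3} {i j : ι} (hij : i ≠ j)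
    (hi : v ∈ P.face i) (hj : v ∈ P.face j) : LinearIndependent ℝ ![P.n i, P.n j] := by
  rw [LinearIndependent.pair_iff]
  intro s t hst
  obtain ⟨x, hx⟩ := hP.interior
  have e1 : s * P.b i + t * P.b j = 0 := by
    have := congrArg (fun y => (inner ℝ y v : ℝ)) hst
    simp only [inner_add_left, inner_smul_left, inner_zero_left] at this
    rw [hi.2, hj.2] at this
    simpa using this
  have e2 : s * inner ℝ (P.n i) x + t * inner ℝ (P.n j) x = 0 := by
    have := congrArg (fun y => (inner ℝ y x : ℝ)) hst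
    simp only [inner_add_left, inner_smul_left, inner_zero_left] at this
    simpa using this
  set α := P.b i - inner ℝ (P.n i) x with hα
  set β := P.b j - inner ℝ (P.n j) x with hβ
  have hα0 : 0 < α := sub_pos.2 (hx i)
  have hβ0 : 0 < β := sub_pos.2 (hx j)
  have e3 : s * α + t * β = 0 := by rw [hα, hβ]; linarith
  by_cases hs : s = 0
  · subst hs
    rw [zero_mul, zero_add] at e3
    exact ⟨rfl, (mul_eq_zero.1 e3).resolve_right hβ0.ne'⟩
  exfalso
  apply hP.inj i j hij
  have ht : t = -(s * α / β) := by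
    field_simp
    linarith
  have hn : P.n i = (α / β) • P.n j := by
    have h1 : s • P.n i = (s * (α / β)) • P.n j := by
      have h2 : s • P.n i = -(t • P.n j) := eq_neg_of_add_eq_zero_left hst
      rw [h2, ht, ← neg_smul, neg_neg, mul_div_assoc]
    have h3 := congrArg (fun y => s⁻¹ • y) h1
    simp only [smul_smul] at h3
    rw [inv_mul_cancel₀ hs, one_smul, ← mul_assoc, inv_mul_cancel₀ hs, one_mul] at h3
    exact h3
  have hb : P.b i = (α / β) * P.b j := by
    have h1 : s * P.b i = s * ((α / β) * P.b j) := by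
      have h2 : s * P.b i = -(t * P.b j) := by linarith
      rw [h2, ht]; ring
    exact mul_left_cancel₀ hs h1
  have hk : 0 < α / β := div_pos hα0 hβ0
  ext y
  constructor
  · rintro ⟨hy, hy2⟩
    refine ⟨hy, ?_⟩
    rw [hn, hb, inner_smul_left] at hy2
    exact mul_left_cancel₀ hk.ne' hy2
  · rintro ⟨hy, hy2⟩
    refine ⟨hy, ?_⟩
    rw [hn, hb, inner_smul_left, hy2]
    rfl

/-- an edge meets a plane not through `v` in at most one point -/
theorem edge_sub {P : Poly ι} (hP : IsPolyhedron P) {v a : E3} {i j : ι} (hij : i ≠ j)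
    (hi : v ∈ P.face i) (hj : v ∈ P.face j) {c : ℝ} (hc : c ≠ inner ℝ a v) :
    ((P.face i ∩ P.face j) ∩ {x | inner ℝ a x = c}).Subsingleton := by
  rintro x ⟨⟨hxi, hxj⟩, hxc⟩ y ⟨⟨hyi, hyj⟩, hyc⟩
  have hind := indep hP hij hi hj
  set K : Submodule ℝ E3 := Submodule.span ℝ (Set.range ![P.n i, P.n j]) with hK
  have hKr : finrank ℝ K = 2 := by
    rw [hK, finrank_span_eq_card hind]
    simp
  have hKo : finrank ℝ Kᗮ = 1 := by
    have := K.finrank_add_finrank_orthogonal
    rw [hKr, finrank_euclideanSpace, Fintype.card_fin] at this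
    omega
  have hmem : ∀ z, z ∈ P.face i → z ∈ P.face j → z - v ∈ Kᗮ := by
    intro z hzi hzj
    rw [Submodule.mem_orthogonal]
    intro u hu
    rw [hK] at hu
    induction hu using Submodule.span_induction with
    | mem u hu =>
      obtain ⟨k, rfl⟩ := hu
      fin_cases k
      · show inner ℝ (P.n i) (z - v) = 0
        rw [inner_sub_right, hzi.2, hi.2, sub_self]
      · show inner ℝ (P.n j) (z - v) = 0
        rw [inner_sub_right, hzj.2, hj.2, sub_self]
    | zero => exact inner_zero_left _
    | add u w _ _ hu hw => rw [inner_add_left, hu, hw, add_zero]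
    | smul c u _ hu => rw [inner_smul_left, hu, mul_zero]
  have hx1 := hmem x hxi hxj
  have hy1 := hmem y hyi hyj
  have hxc' : inner ℝ a x = c := hxc
  have hyc' : inner ℝ a y = c := hyc
  have hx0 : (⟨x - v, hx1⟩ : Kᗮ) ≠ 0 := by
    intro h
    have h1 : x - v = 0 := congrArg Subtype.val h
    apply hc
    rw [← hxc', sub_eq_zero.1 h1]
  obtain ⟨t, ht⟩ := (finrank_eq_one_iff_of_nonzero' _ hx0).1 hKo ⟨y - v, hy1⟩
  have ht' : t • (x - v) = y - v := congrArg Subtype.val ht
  have h1 : t * (c - inner ℝ a v) = c - inner ℝ a v := by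
    have := congrArg (fun z => (inner ℝ a z : ℝ)) ht'
    simp only [inner_smul_right, inner_sub_right, hxc', hyc'] at this
    exact this
  have h2 : t = 1 := by
    have h3 : c - inner ℝ a v ≠ 0 := sub_ne_zero.2 hc
    exact mul_right_cancel₀ h3 (by rw [h1, one_mul])
  rw [h2, one_smul] at ht'
  exact sub_left_injective ht'

/-- the level of the section -/
theorem exists_level {P : Poly ι} (hP : IsPolyhedron P) {v : E3}
    (hv : v ∈ P.body.extremePoints ℝ) :
    ∃ c : ℝ, c < inner ℝ (nrm P v) v ∧
      (∀ i, v ∉ P.face i → ∀ x ∈ P.face i, inner ℝ (nrm P v) x < c) ∧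
      (∃ y, (∀ i, inner ℝ (P.n i) y < P.b i) ∧ inner ℝ (nrm P v) y = c) ∧
      ∀ i, v ∈ P.face i → ∃ x ∈ P.face i, ∃ y ∈ P.face i, x ≠ y ∧
        inner ℝ (nrm P v) x = c ∧ inner ℝ (nrm P v) y = c := by
  set a := nrm P v with ha
  have hcpt : ∀ i, IsCompact (P.face i) := fun i =>
    Metric.isCompact_of_isClosed_isBounded (face_closed P i) (hP.bounded.subset (face_sub P i))
  -- (2)
  have E2 : ∀ᶠ c in 𝓝[<] (inner ℝ a v : ℝ), ∀ i, v ∉ P.face i → ∀ x ∈ P.face i,
      inner ℝ a x < c := by
    rw [Filter.eventually_all]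
    intro i
    by_cases hi : v ∈ P.face i
    · exact Filter.Eventually.of_forall fun _ h => absurd hi h
    · rcases (P.face i).eq_empty_or_nonempty with he | hne
      · refine Filter.Eventually.of_forall fun _ _ x hx => ?_
        rw [he] at hx
        exact absurd hx (Set.notMem_empty x)
      · obtain ⟨x0, hx0, hmax⟩ := (hcpt i).exists_isMaxOn hne
          (f := fun x => (inner ℝ a x : ℝ)) (by fun_prop)
        have hlt : (inner ℝ a x0 : ℝ) < inner ℝ a v :=
          nrm_lt P hv (face_sub P i hx0) (fun h => hi (h ▸ hx0))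
        filter_upwards [Ioo_mem_nhdsLT hlt] with c hc _ x hx
        exact lt_of_le_of_lt (hmax hx) hc.1
  -- (3)
  obtain ⟨x0, hx0⟩ := hP.interior
  have hx0b : x0 ∈ P.body := fun i => (hx0 i).le
  have hface : ∃ i, v ∈ P.face i := by
    by_contra h
    push Not at h
    have hx0v : x0 ≠ v ∨ x0 = v := ne_or_eq _ _
    have ha0 : a = 0 := by
      rw [ha]
      unfold nrm
      exact Finset.sum_eq_zero fun i _ => if_neg (h i)
    -- all points have the same value, so the body is a point
    have hsub : ∀ x ∈ P.body, x = v := by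
      intro x hx
      by_contra hxv
      have := nrm_lt P hv hx hxv
      rw [← ha, ha0, inner_zero_left, inner_zero_left] at this
      exact lt_irrefl _ this
    rcases isEmpty_or_nonempty ι with hι | ⟨⟨i⟩⟩
    · have h1 := hsub (v + EuclideanSpace.single 0 1) (fun i => (hι.false i).elim)
      have h2 : (EuclideanSpace.single (0 : Fin 3) (1 : ℝ) : E3) = 0 := by
        simpa using h1
      have h3 := congrArg (fun z : E3 => z 0) h2
      simp at h3
    · have hd := hP.dim i
      have hne : (P.face i).Nonempty := by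
        by_contra hne
        rw [Set.not_nonempty_iff_eq_empty] at hne
        rw [hne, vectorSpan_empty, finrank_bot] at hd
        omega
      obtain ⟨x, hx⟩ := hne
      rw [← hsub x (face_sub P i hx)] at h
      exact h i hx
  have hx0v : x0 ≠ v := by
    rintro rfl
    obtain ⟨i, hi⟩ := hface
    exact absurd hi.2 (hx0 i).ne
  have hx0lt : (inner ℝ a x0 : ℝ) < inner ℝ a v := nrm_lt P hv hx0b hx0v
  have E3' : ∀ᶠ c in 𝓝[<] (inner ℝ a v : ℝ), ∃ y, (∀ i, inner ℝ (P.n i) y < P.b i) ∧
      inner ℝ a y = c := by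
    filter_upwards [Ioo_mem_nhdsLT hx0lt] with c hc
    set s := (inner ℝ a v - c) / (inner ℝ a v - inner ℝ a x0) with hs
    have hden : 0 < (inner ℝ a v - inner ℝ a x0 : ℝ) := sub_pos.2 hx0lt
    have hs0 : 0 < s := div_pos (sub_pos.2 hc.2) hden
    have hs1 : s < 1 := by
      rw [hs, div_lt_one hden]
      linarith [hc.1]
    refine ⟨v + s • (x0 - v), fun i => ?_, ?_⟩
    · rw [inner_add_right, inner_smul_right, inner_sub_right]
      have h1 := hv.1 i
      have h2 := hx0 i
      nlinarith
    · rw [inner_add_right, inner_smul_right, inner_sub_right, hs]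
      field_simp
      ring
  -- (4)
  have E4 : ∀ᶠ c in 𝓝[<] (inner ℝ a v : ℝ), ∀ i, v ∈ P.face i → ∃ x ∈ P.face i,
      ∃ y ∈ P.face i, x ≠ y ∧ inner ℝ a x = c ∧ inner ℝ a y = c := by
    rw [Filter.eventually_all]
    intro i
    by_cases hi : v ∈ P.face i
    swap
    · exact Filter.Eventually.of_forall fun _ h => absurd h hi
    · obtain ⟨p, hp, q, hq, hpv, hqv, hind⟩ := two_points hP hi
      have hplt : (inner ℝ a p : ℝ) < inner ℝ a v := nrm_lt P hv (face_sub P i hp) hpv
      have hqlt : (inner ℝ a q : ℝ) < inner ℝ a v := nrm_lt P hv (face_sub P i hq) hqv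
      filter_upwards [Ioo_mem_nhdsLT hplt, Ioo_mem_nhdsLT hqlt] with c hc hc' _
      have key : ∀ r ∈ P.face i, (inner ℝ a r : ℝ) < c → c < inner ℝ a v →
          ∃ s : ℝ, 0 < s ∧ v + s • (r - v) ∈ P.face i ∧ inner ℝ a (v + s • (r - v)) = c := by
        intro r hr h1 h2
        have hden : 0 < (inner ℝ a v - inner ℝ a r : ℝ) := by linarith
        have hs0 : 0 < (inner ℝ a v - c) / (inner ℝ a v - inner ℝ a r) :=
          div_pos (sub_pos.2 h2) hden
        have hs1 : (inner ℝ a v - c) / (inner ℝ a v - inner ℝ a r) ≤ 1 := by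
          rw [div_le_one hden]; linarith
        refine ⟨(inner ℝ a v - c) / (inner ℝ a v - inner ℝ a r), hs0, ?_, ?_⟩
        · have := face_convex P i hi hr (sub_nonneg.2 hs1) hs0.le (by ring)
          convert this using 1
          module
        · rw [inner_add_right, inner_smul_right, inner_sub_right]
          field_simp
          ring
      obtain ⟨s, hs0, hs1, hs2⟩ := key p hp hc.1 hc.2
      obtain ⟨t, ht0, ht1, ht2⟩ := key q hq hc'.1 hc'.2
      refine ⟨_, hs1, _, ht1, fun h => ?_, hs2, ht2⟩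
      exact hs0.ne' (hind s t (add_left_cancel h))
  obtain ⟨c, ⟨⟨h2, h3⟩, h4⟩, h1⟩ :=
    (((E2.and E3').and E4).and (self_mem_nhdsWithin)).exists
  exact ⟨c, h1, h2, h3, h4⟩

end Pool.Agent.R118.PM
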